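import Pool.Agent.Lib.MP_cb3f7b_gt.Ins.Fin

/-!
# Equal sections by the supporting hyperplanes of an inner body, in every dimension
-/

namespace Pool.Agent.Results.MP_cb3f7b_gt.EveryDimension

open CB3 MeasureTheory Metric

theorem result (n : ℕ) (hn : 2 ≤ n) (ε : ℝ) (hε : 0 < ε) :
    ∃ (K K₁ K₂ : Set (EuclideanSpace ℝ (Fin n))) (w : Fin n → ℝ)
      (T : EuclideanSpace ℝ (Fin n) ≃ₗᵢ[ℝ] EuclideanSpace ℝ (Fin n)),
      (Convex ℝ K ∧ IsCompact K ∧ (interior K).Nonempty ∧ ∀ x ∈ K, -x ∈ K) ∧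
      (Convex ℝ K₁ ∧ IsCompact K₁ ∧ (interior K₁).Nonempty) ∧
      (Convex ℝ K₂ ∧ IsCompact K₂ ∧ (interior K₂).Nonempty) ∧
      ((∀ i, 0 < w i) ∧ K₁ = {x | ∑ i, x i ^ 2 / w i ≤ 1} ∧ K₂ = T '' K₁) ∧
      (closedBall 0 ((1 - ε) / Real.sqrt n) ⊆ K ∧ K ⊆ closedBall 0 ((1 + ε) / Real.sqrt n)) ∧
      (closedBall 0 (1 - ε) ⊆ K₁ ∩ K₂ ∧ K₁ ∪ K₂ ⊆ closedBall 0 (1 + ε)) ∧
      K ⊆ interior K₁ ∩ interior K₂ ∧
      K₁ ≠ K₂ ∧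
      ∀ u : EuclideanSpace ℝ (Fin n), u ≠ 0 → ∀ c : ℝ,
        (∀ x ∈ K, inner ℝ u x ≤ c) → (∃ x ∈ K, inner ℝ u x = c) →
        Measure.hausdorffMeasure ((n : ℝ) - 1) (K₁ ∩ {x | inner ℝ u x = c}) =
          Measure.hausdorffMeasure ((n : ℝ) - 1) (K₂ ∩ {x | inner ℝ u x = c}) := by
  obtain ⟨k, rfl⟩ : ∃ k, n = k + 2 := ⟨n - 2, by omega⟩
  obtain ⟨K, w, T, h1, h2, h3, h4, h5, h6, h7, h8, h9, h10, h11, h12, h13, h14⟩ := main k ε hε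
  have himg : ∀ r : ℝ, T '' closedBall 0 r = closedBall 0 r := by
    intro r
    rw [T.image_closedBall, map_zero]
  refine ⟨K, Ell w, T '' Ell w, w, T, ⟨h1, h2, h3, h4⟩, ⟨h9, h10, ?_⟩, ⟨?_, ?_, ?_⟩,
    ⟨h7, rfl, rfl⟩, ⟨h5, h6⟩, ⟨?_, ?_⟩, h13, h8, ?_⟩
  · obtain ⟨x, hx⟩ := h3
    exact ⟨x, (h13 (interior_subset hx)).1⟩
  · exact h9.linear_image T.toLinearEquiv.toLinearMap
  · exact h10.image T.continuous
  · obtain ⟨x, hx⟩ := h3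
    exact ⟨x, (h13 (interior_subset hx)).2⟩
  · refine Set.subset_inter h11 ?_
    rw [← himg (1 - ε)]
    exact Set.image_mono h11
  · refine Set.union_subset h12 ?_
    rw [← himg (1 + ε)]
    exact Set.image_mono h12
  · intro u hu c hc hx
    have e : (((k + 2 : ℕ) : ℝ) - 1) = ((k + 1 : ℕ) : ℝ) := by push_cast; ring
    rw [e]
    exact h14 u hu c hc hx

end Pool.Agent.Results.MP_cb3f7b_gt.EveryDimension
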